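import Pool.Agent.ContB.Fusion
import Pool.Agent.ContB.PathConn

set_option autoImplicit false

open Set

namespace Pool.Agent.Results.MP_dd0f47_gt.ConnectedSubsets

/-- Property (A): for every `ε > 0`, every family of pairwise disjoint connected subsets of `X`,
each of diameter greater than `ε`, is finite. -/
def PropertyA (X : Type) [MetricSpace X] : Prop :=
  ∀ ε : ℝ, 0 < ε → ∀ F : Set (Set X), F.PairwiseDisjoint id →
    (∀ C ∈ F, IsConnected C ∧ ε < Metric.diam C) → F.Finite

/-- `f` exhibits `Y` as a monotone image of `X`: it is a continuous surjection with connected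
fibres. -/
def MonotoneOnto {X Y : Type} [TopologicalSpace X] [TopologicalSpace Y] (f : X → Y) : Prop :=
  Continuous f ∧ Function.Surjective f ∧ ∀ y : Y, IsConnected (f ⁻¹' {y})

/-- `Z` is a countable union of arcs (subspaces homeomorphic to `[0, 1]`). -/
def CountableUnionOfArcs (Z : Type) [TopologicalSpace Z] : Prop :=
  ∃ A : ℕ → Set Z, (∀ n, Nonempty (A n ≃ₜ unitInterval)) ∧ ⋃ n, A n = univ

/-- Property (B) in a weak form: every Hausdorff monotone image `Y` of `X` embeds in some
Hausdorff space `Z` that is a countable union of arcs. (In the problem `Z` is moreover a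
continuum.) -/
def PropertyB (X : Type) [TopologicalSpace X] : Prop :=
  ∀ (Y : Type) [TopologicalSpace Y] [T2Space Y] (f : X → Y), MonotoneOnto f →
    ∃ (Z : Type) (_ : TopologicalSpace Z) (_ : T2Space Z) (g : Y → Z),
      Topology.IsEmbedding g ∧ CountableUnionOfArcs Z

/-- In a continuum with (A) and (B) every connected subset is path-connected. -/
theorem result : ∀ (X : Type) [MetricSpace X] [CompactSpace X] [ConnectedSpace X],
    PropertyA X → PropertyB X → ∀ S : Set X, IsConnected S → IsPathConnected S := by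
  intro X _ _ _ hA hB S hS
  have hB' : Pool.Agent.ContB.PropB X := by
    intro Y _ _ f h1 h2 h3
    obtain ⟨Z, i1, i2, g, hg, A, hA1, hA2⟩ := hB Y f ⟨h1, h2, h3⟩
    exact ⟨Z, i1, i2, g, hg, A, hA1, hA2⟩
  rw [isPathConnected_iff]
  refine ⟨hS.nonempty, fun x hx y hy => ?_⟩
  obtain ⟨C, hCS, hCc, hCcon, hxC, hyC⟩ :=
    Pool.Agent.ContB.crel_of_isPreconnected (X := X) hA hB' hS.isPreconnected hx hy
  exact (Pool.Agent.ContB.joinedIn_of_continuum hA hCc hCcon.isPreconnected hxC hyC).mono hCS

end Pool.Agent.Results.MP_dd0f47_gt.ConnectedSubsets
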